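import Pool.Agent.Helper34.SQ.GoalsM

/-!
Project SQ (MP_bb32d1_al), packet G0.
-/

set_option autoImplicit false

namespace Pool.Agent.Helper36.SQ

open Finset Matrix Pool.Agent.Helper19.SQ Pool.Agent.Helper34.SQ

noncomputable section

/-! ### the left ideal -/

section ideal

variable {R : Type} [Ring R] [Algebra ℂ R]

theorem mul_aeval_mem (W : Submodule R R) (k : R) (hk : ∀ x ∈ W, x * k ∈ W)
    (p : Polynomial ℂ) : ∀ x ∈ W, x * Polynomial.aeval k p ∈ W := by
  induction p using Polynomial.induction_on' with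
  | add p r hp hr =>
    intro x hx
    rw [map_add, mul_add]
    exact W.add_mem (hp x hx) (hr x hx)
  | monomial n a =>
    intro x hx
    rw [Polynomial.aeval_monomial, ← mul_assoc, ← Algebra.commutes a x]
    have h : ∀ n : ℕ, ∀ y ∈ W, y * k ^ n ∈ W := by
      intro n
      induction n with
      | zero => intro y hy; rw [pow_zero, mul_one]; exact hy
      | succ n ih =>
        intro y hy
        rw [pow_succ, ← mul_assoc]
        exact hk _ (ih y hy)
    exact h n _ (W.smul_mem (algebraMap ℂ R a) hx)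

theorem sup_prod_eq_top (W : Submodule R R) (k : R) (hk : ∀ x ∈ W, x * k ∈ W) (T : Finset ℂ)
    (hT : ∀ c ∈ T, W ⊔ Submodule.span R {k - algebraMap ℂ R c} = ⊤) :
    W ⊔ Submodule.span R {Polynomial.aeval k (∏ c ∈ T, (Polynomial.X - Polynomial.C c))} = ⊤ := by
  classical
  induction T using Finset.induction_on with
  | empty =>
    rw [Finset.prod_empty, map_one, eq_top_iff]
    intro x _
    apply Submodule.mem_sup_right
    rw [Submodule.mem_span_singleton]
    exact ⟨x, by rw [smul_eq_mul, mul_one]⟩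
  | insert c T hc ih =>
    have ih' := ih (fun d hd => hT d (Finset.mem_insert_of_mem hd))
    have h1 := hT c (Finset.mem_insert_self c T)
    rw [Finset.prod_insert hc, map_mul]
    set P : R := Polynomial.aeval k (∏ c ∈ T, (Polynomial.X - Polynomial.C c)) with hP
    have e1 : Polynomial.aeval k (Polynomial.X - Polynomial.C c) = k - algebraMap ℂ R c := by
      rw [map_sub, Polynomial.aeval_X, Polynomial.aeval_C]
    rw [e1, eq_top_iff]
    intro x _
    have hx : x ∈ W ⊔ Submodule.span R {P} := by rw [ih']; trivial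
    rw [Submodule.mem_sup] at hx
    obtain ⟨w, hw, z, hz, rfl⟩ := hx
    rw [Submodule.mem_span_singleton] at hz
    obtain ⟨a, rfl⟩ := hz
    have ha : a ∈ W ⊔ Submodule.span R {k - algebraMap ℂ R c} := by rw [h1]; trivial
    rw [Submodule.mem_sup] at ha
    obtain ⟨w', hw', z', hz', rfl⟩ := ha
    rw [Submodule.mem_span_singleton] at hz'
    obtain ⟨a', rfl⟩ := hz'
    have e2 : w + (w' + a' • (k - algebraMap ℂ R c)) • P =
        (w + w' * P) + a' • ((k - algebraMap ℂ R c) * P) := by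
      simp only [smul_eq_mul]
      noncomm_ring
    rw [e2]
    refine Submodule.add_mem _ (Submodule.mem_sup_left (W.add_mem hw
      (mul_aeval_mem W k hk _ w' hw'))) (Submodule.mem_sup_right ?_)
    exact Submodule.smul_mem _ _ (Submodule.mem_span_singleton_self _)

theorem exists_step {l : ℕ} (hl : 0 < l) {q : ℂ} (hq : IsPrimitiveRoot q l)
    (W : Submodule R R) (hW : W ≠ ⊤) (k : R) (hkl : k ^ l = 1) (hk : ∀ x ∈ W, x * k ∈ W) :
    ∃ t : ℕ, W ⊔ Submodule.span R {k - algebraMap ℂ R (q ^ t)} ≠ ⊤ := by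
  by_contra hcon
  push Not at hcon
  have h1 := sup_prod_eq_top W k hk (Polynomial.nthRootsFinset l (1 : ℂ)) (by
    intro c hc
    rw [Polynomial.mem_nthRootsFinset hl] at hc
    have : NeZero l := ⟨hl.ne'⟩
    obtain ⟨t, _, rfl⟩ := hq.eq_pow_of_pow_eq_one hc
    exact hcon t)
  rw [← Polynomial.X_pow_sub_one_eq_prod hl hq, map_sub, map_pow, Polynomial.aeval_X, map_one, hkl,
    sub_self] at h1
  apply hW
  rw [← h1]
  rw [Submodule.span_zero_singleton, sup_bot_eq]

theorem exists_W {l : ℕ} (hl : 0 < l) {q : ℂ} (hq : IsPrimitiveRoot q l) (K : ℕ → R)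
    (hKl : ∀ j, K j ^ l = 1) (hK : ∀ i j, K i * K j = K j * K i) (φ : R →ₐ[ℂ] R)
    (hφ : ∀ j, φ (K j) = K j) (I0 : Submodule R R) (h0 : I0 ≠ ⊤) (hI : ∀ x ∈ I0, ∀ j, x * K j ∈ I0)
    (hIφ : ∀ x ∈ I0, φ x ∈ I0) (n : ℕ) :
    ∃ (W : Submodule R R) (μ : ℕ → ℕ), W ≠ ⊤ ∧ I0 ≤ W ∧ (∀ x ∈ W, ∀ j, x * K j ∈ W) ∧
      (∀ x ∈ W, φ x ∈ W) ∧ ∀ j < n, K j - algebraMap ℂ R (q ^ μ j) ∈ W := by
  induction n with
  | zero => exact ⟨I0, fun _ => 0, h0, le_rfl, hI, hIφ, fun j hj => absurd hj (by omega)⟩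
  | succ n ih =>
    obtain ⟨W, μ, hW, hle, hWK, hWφ, hWμ⟩ := ih
    obtain ⟨t, ht⟩ := exists_step hl hq W hW (K n) (hKl n) (fun x hx => hWK x hx n)
    refine ⟨W ⊔ Submodule.span R {K n - algebraMap ℂ R (q ^ t)},
      fun j => if j = n then t else μ j, ht, le_sup_of_le_left hle, ?_, ?_, ?_⟩
    · intro x hx j
      rw [Submodule.mem_sup] at hx
      obtain ⟨w, hw, z, hz, rfl⟩ := hx
      rw [Submodule.mem_span_singleton] at hz
      obtain ⟨a, rfl⟩ := hz
      have e : (w + a • (K n - algebraMap ℂ R (q ^ t))) * K j =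
          w * K j + (a * K j) • (K n - algebraMap ℂ R (q ^ t)) := by
        simp only [smul_eq_mul]
        rw [add_mul, mul_assoc a, mul_assoc a, sub_mul, hK n j, Algebra.commutes, ← mul_sub]
      rw [e]
      exact Submodule.add_mem _ (Submodule.mem_sup_left (hWK w hw j))
        (Submodule.mem_sup_right (Submodule.smul_mem _ _ (Submodule.mem_span_singleton_self _)))
    · intro x hx
      rw [Submodule.mem_sup] at hx
      obtain ⟨w, hw, z, hz, rfl⟩ := hx
      rw [Submodule.mem_span_singleton] at hz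
      obtain ⟨a, rfl⟩ := hz
      have e : φ (w + a • (K n - algebraMap ℂ R (q ^ t))) =
          φ w + (φ a) • (K n - algebraMap ℂ R (q ^ t)) := by
        simp only [smul_eq_mul]
        rw [map_add, map_mul, map_sub, hφ, AlgHom.commutes]
      rw [e]
      exact Submodule.add_mem _ (Submodule.mem_sup_left (hWφ w hw))
        (Submodule.mem_sup_right (Submodule.smul_mem _ _ (Submodule.mem_span_singleton_self _)))
    · intro j hj
      by_cases hjn : j = n
      · subst hjn
        simp only [if_true]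
        exact Submodule.mem_sup_right (Submodule.mem_span_singleton_self _)
      · simp only [if_neg hjn]
        exact Submodule.mem_sup_left (hWμ j (by omega))

end ideal

/-! ### weights -/

section weights

variable {N l : ℕ} {q : ℂ}

theorem tw_add (s : ℕ → ℂˣ) (μ ν : Fin (N + 1) → ℤ) :
    tw N s (μ + ν) = tw N s μ * tw N s ν := by
  unfold tw
  rw [← Finset.prod_mul_distrib]
  apply Finset.prod_congr rfl
  intro j _
  rw [Pi.add_apply, zpow_add₀ (s j).ne_zero]

theorem tw_zero (s : ℕ → ℂˣ) : tw N s 0 = 1 := by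
  unfold tw
  apply Finset.prod_eq_one
  intro j _
  rw [Pi.zero_apply, zpow_zero]

/-- `x` has the weight `ν`. -/
def HasW (hl : l ≠ 0) (s : ℕ → ℂˣ) (ν : Fin (N + 1) → ℤ) (x : A N l q) : Prop :=
  tor N l q hl s x = tw N s ν • x ∧
    ∀ j : Fin (N + 1), gK N l q j * x = (q ^ ν j : ℂ) • (x * gK N l q j)

variable {hl : l ≠ 0} {s : ℕ → ℂˣ}

theorem HasW.mul (hq : q ≠ 0) {μ ν : Fin (N + 1) → ℤ} {x y : A N l q} (hx : HasW hl s μ x)
    (hy : HasW hl s ν y) : HasW hl s (μ + ν) (x * y) := by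
  refine ⟨?_, ?_⟩
  · rw [map_mul, hx.1, hy.1, smul_mul_smul_comm, tw_add]
  · intro j
    rw [← mul_assoc, hx.2 j, smul_mul_assoc, mul_assoc x, hy.2 j, mul_smul_comm, smul_smul,
      Pi.add_apply, zpow_add₀ hq, mul_assoc]

theorem HasW.add {μ : Fin (N + 1) → ℤ} {x y : A N l q} (hx : HasW hl s μ x)
    (hy : HasW hl s μ y) : HasW hl s μ (x + y) := by
  refine ⟨?_, ?_⟩
  · rw [map_add, hx.1, hy.1, smul_add]
  · intro j
    rw [mul_add, hx.2 j, hy.2 j, ← smul_add, add_mul]

theorem HasW.smul {μ : Fin (N + 1) → ℤ} {x : A N l q} (c : ℂ) (hx : HasW hl s μ x) :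
    HasW hl s μ (c • x) := by
  refine ⟨?_, ?_⟩
  · rw [map_smul, hx.1, smul_comm]
  · intro j
    rw [mul_smul_comm, hx.2 j, smul_mul_assoc, smul_comm]

theorem HasW.one : HasW hl s 0 (1 : A N l q) := by
  refine ⟨?_, ?_⟩
  · rw [map_one, tw_zero, one_smul]
  · intro j
    rw [mul_one, one_mul, Pi.zero_apply, zpow_zero, one_smul]

theorem HasW.pow (hq : q ≠ 0) {μ : Fin (N + 1) → ℤ} {x : A N l q} (hx : HasW hl s μ x) (n : ℕ) :
    ∃ ν, HasW hl s ν (x ^ n) := by
  induction n with
  | zero => exact ⟨0, by rw [pow_zero]; exact HasW.one⟩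
  | succ n ih =>
    obtain ⟨ν, hν⟩ := ih
    exact ⟨ν + μ, by rw [pow_succ]; exact hν.mul hq hx⟩

theorem HasW.list (hq : q ≠ 0) {ι : Type} (L : List ι) (f : ι → A N l q)
    (h : ∀ i ∈ L, ∃ ν, HasW hl s ν (f i)) : ∃ ν, HasW hl s ν (L.map f).prod := by
  induction L with
  | nil => exact ⟨0, by rw [List.map_nil, List.prod_nil]; exact HasW.one⟩
  | cons a L ih =>
    obtain ⟨ν, hν⟩ := ih (fun i hi => h i (List.mem_cons_of_mem a hi))
    obtain ⟨μ, hμ⟩ := h a List.mem_cons_self
    exact ⟨μ + ν, by rw [List.map_cons, List.prod_cons]; exact hμ.mul hq hν⟩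

theorem HasW.rvA (hq : q ≠ 0) {X : ℕ → A N l q} (hX : ∀ i, ∃ ν, HasW hl s ν (X i)) (d : ℕ) :
    ∀ i, ∃ ν, HasW hl s ν (Pool.Agent.Helper19.SQ.rvA q X d i) := by
  induction d with
  | zero => exact hX
  | succ d ih =>
    intro i
    obtain ⟨μ, hμ⟩ := hX i
    obtain ⟨ν, hν⟩ := ih (i + 1)
    refine ⟨μ + ν, ?_⟩
    change HasW hl s (μ + ν) (X i * Pool.Agent.Helper19.SQ.rvA q X d (i + 1) -
      q⁻¹ • (Pool.Agent.Helper19.SQ.rvA q X d (i + 1) * X i))
    rw [sub_eq_add_neg, ← neg_smul]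
    refine (hμ.mul hq hν).add (HasW.smul _ ?_)
    rw [add_comm]
    exact hν.mul hq hμ

theorem HasW.mon (hq : q ≠ 0) {X : ℕ → A N l q} (hX : ∀ i, ∃ ν, HasW hl s ν (X i))
    (b : ℕ → ℕ → ℕ) : ∃ ν, HasW hl s ν (Pool.Agent.Helper19.SQ.mon N q X b) := by
  unfold Pool.Agent.Helper19.SQ.mon
  apply HasW.list hq
  intro i _
  unfold Pool.Agent.Helper19.SQ.rowM
  apply HasW.list hq
  intro d _
  obtain ⟨ν, hν⟩ := HasW.rvA hq hX (i + 1 + d - i - 1) i
  exact hν.pow hq _

/-- the weight `ε_i - ε_j`. -/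
def ewt (N i j : ℕ) : Fin (N + 1) → ℤ := fun p =>
  (if (p : ℕ) = i then 1 else 0) - (if (p : ℕ) = j then 1 else 0)

theorem prod_ite (s : ℕ → ℂˣ) (i : ℕ) (hi : i < N + 1) :
    ∏ p : Fin (N + 1), (s p : ℂ) ^ (if (p : ℕ) = i then (1 : ℤ) else 0) = s i := by
  rw [Finset.prod_eq_single ⟨i, hi⟩]
  · simp
  · intro p _ hp
    rw [if_neg (fun h => hp (Fin.ext h)), zpow_zero]
  · intro h
    exact absurd (Finset.mem_univ _) h

theorem tw_ewt (s : ℕ → ℂˣ) (i j : ℕ) (hi : i < N + 1) (hj : j < N + 1) :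
    tw N s (ewt N i j) = (s i : ℂ) * (s j : ℂ)⁻¹ := by
  unfold tw ewt
  have : ∀ p : Fin (N + 1), (s p : ℂ) ^ (((if (p : ℕ) = i then 1 else 0) -
      (if (p : ℕ) = j then 1 else 0) : ℤ)) = (s p : ℂ) ^ (if (p : ℕ) = i then (1 : ℤ) else 0) /
      (s p : ℂ) ^ (if (p : ℕ) = j then (1 : ℤ) else 0) := by
    intro p
    rw [zpow_sub₀ (s p).ne_zero]
  simp only [this]
  rw [Finset.prod_div_distrib, prod_ite s i hi, prod_ite s j hj, div_eq_mul_inv]

theorem pr_ewt (i : ℕ) (j : Fin (N + 1)) : pr j i = ewt N i (i + 1) j := by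
  unfold pr ewt
  by_cases h1 : (j : ℕ) = i
  · rw [if_pos h1, if_pos h1, if_neg (by omega)]
    norm_num
  · rw [if_neg h1, if_neg h1]
    by_cases h2 : (j : ℕ) = i + 1
    · rw [if_pos h2, if_pos h2]
      norm_num
    · rw [if_neg h2, if_neg h2]
      norm_num

theorem hasW_zero : HasW hl s 0 (0 : A N l q) := by
  refine ⟨?_, ?_⟩
  · rw [map_zero, smul_zero]
  · intro j
    rw [mul_zero, zero_mul, smul_zero]

theorem hasW_E (i : ℕ) : ∃ ν, HasW hl s ν (gE N l q i) := by
  by_cases hi : N ≤ i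
  · exact ⟨0, by rw [(glA N l q).E_out i hi]; exact hasW_zero⟩
  · refine ⟨ewt N i (i + 1), ?_, ?_⟩
    · rw [tor_E, tw_ewt s i (i + 1) (by omega) (by omega)]
    · intro j
      rw [(glA N l q).KE j i, pr_ewt]

theorem hasW_F (i : ℕ) : ∃ ν, HasW hl s ν (gF N l q i) := by
  by_cases hi : N ≤ i
  · exact ⟨0, by rw [(glA N l q).F_out i hi]; exact hasW_zero⟩
  · refine ⟨ewt N (i + 1) i, ?_, ?_⟩
    · rw [tor_F, tw_ewt s (i + 1) i (by omega) (by omega), mul_comm]
    · intro j
      rw [(glA N l q).KF j i, pr_ewt]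
      congr 2
      unfold ewt
      ring

theorem hasW_K (i : ℕ) : HasW hl s 0 (gK N l q i) := by
  refine ⟨?_, ?_⟩
  · rw [tor_K, tw_zero, one_smul]
  · intro j
    rw [(glA N l q).K_comm j i, Pi.zero_apply, zpow_zero, one_smul]

end weights

/-! ### a lattice lemma -/

theorem eq_of_indep {V ι : Type} [AddCommGroup V] [Module ℂ V] (E W : ι → Submodule ℂ V)
    (hE : iSupIndep E) (hle : ∀ i, W i ≤ E i) (htop : ⨆ i, W i = ⊤) (i : ι) : E i = W i := by
  refine le_antisymm ?_ (hle i)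
  intro x hx
  have h1 : x ∈ W i ⊔ ⨆ (j) (_ : j ≠ i), W j := by
    have : (⨆ j, W j) ≤ W i ⊔ ⨆ (j) (_ : j ≠ i), W j := by
      apply iSup_le
      intro j
      by_cases hj : j = i
      · rw [hj]; exact le_sup_left
      · exact le_sup_of_le_right (le_iSup₂_of_le j hj le_rfl)
    apply this
    rw [htop]
    trivial
  rw [Submodule.mem_sup] at h1
  obtain ⟨y, hy, z, hz, rfl⟩ := h1
  have h2 : z ∈ E i := by
    have := (E i).sub_mem hx (hle i hy)
    rwa [add_sub_cancel_left] at this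
  have h3 : z ∈ ⨆ (j) (_ : j ≠ i), E j := by
    have : (⨆ (j) (_ : j ≠ i), W j) ≤ ⨆ (j) (_ : j ≠ i), E j :=
      iSup₂_mono (fun j _ => hle j)
    exact this hz
  have h4 : z = 0 := by
    have h5 := (Submodule.disjoint_def.mp (hE i)) z h2 h3
    exact h5
  rw [h4, add_zero]
  exact hy

/-! ### the module -/

section module

variable {N l : ℕ} {q : ℂ}

/-- the operator on the quotient. -/
def thQ (hl : l ≠ 0) (s : ℕ → ℂˣ) (c : ℂ) (W : Submodule (A N l q) (A N l q))
    (hW : ∀ x ∈ W, tor N l q hl s x ∈ W) : (A N l q ⧸ W) →ₗ[ℂ] (A N l q ⧸ W) where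
  toFun := Quotient.lift (fun a : A N l q => (c • (W.mkQ (tor N l q hl s a)) : A N l q ⧸ W)) (by
    intro a b hab
    have h : a - b ∈ W := (Submodule.quotientRel_def W).mp hab
    have h2 := hW _ h
    rw [map_sub] at h2
    have h3 : W.mkQ (tor N l q hl s a) = W.mkQ (tor N l q hl s b) :=
      (Submodule.Quotient.eq W).mpr h2
    change c • W.mkQ (tor N l q hl s a) = c • W.mkQ (tor N l q hl s b)
    rw [h3])
  map_add' := by
    intro x y
    induction x using Submodule.Quotient.induction_on with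
    | _ a =>
    induction y using Submodule.Quotient.induction_on with
    | _ b =>
    change c • W.mkQ (tor N l q hl s (a + b)) = c • W.mkQ (tor N l q hl s a) +
      c • W.mkQ (tor N l q hl s b)
    rw [map_add, map_add, smul_add]
  map_smul' := by
    intro z x
    induction x using Submodule.Quotient.induction_on with
    | _ a =>
    change c • W.mkQ (tor N l q hl s (z • a)) = z • (c • W.mkQ (tor N l q hl s a))
    rw [map_smul, smul_comm z c]
    rfl

theorem thQ_mk (hl : l ≠ 0) (s : ℕ → ℂˣ) (c : ℂ) (W : Submodule (A N l q) (A N l q))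
    (hW : ∀ x ∈ W, tor N l q hl s x ∈ W) (a : A N l q) :
    thQ hl s c W hW (W.mkQ a) = c • W.mkQ (tor N l q hl s a) := rfl

/-- the space of the vectors of weight `ν`. -/
def WS (s : ℕ → ℂˣ) {M : Type} [AddCommGroup M] [Module ℂ M] [Module (A N l q) M]
    [IsScalarTower ℂ (A N l q) M] (Θ : M →ₗ[ℂ] M) (ν : Fin (N + 1) → ℤ) : Submodule ℂ M :=
  Module.End.eigenspace Θ (tw N s ν) ⊓
    ⨅ j : Fin (N + 1), Module.End.eigenspace (lsm (gK N l q j)) (q ^ ν j : ℂ)

theorem mem_WS (s : ℕ → ℂˣ) {M : Type} [AddCommGroup M] [Module ℂ M] [Module (A N l q) M]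
    [IsScalarTower ℂ (A N l q) M] (Θ : M →ₗ[ℂ] M) (ν : Fin (N + 1) → ℤ) (m : M) :
    m ∈ WS (l := l) (q := q) s Θ ν ↔ Θ m = tw N s ν • m ∧
      ∀ j : Fin (N + 1), gK N l q j • m = (q ^ ν j : ℂ) • m := by
  unfold WS
  rw [Submodule.mem_inf, Submodule.mem_iInf, Module.End.mem_eigenspace_iff]
  simp only [Module.End.mem_eigenspace_iff, lsm_apply]

/-- The construction of a graded module from a generator. -/
theorem gm_of_gen [NeZero l] (hl : l ≠ 0) (s : ℕ → ℂˣ) (hinj : Function.Injective (tw N s))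
    (hq : q ≠ 0) {M : Type} [AddCommGroup M] [Module ℂ M] [Module (A N l q) M]
    [IsScalarTower ℂ (A N l q) M] (hfd : FiniteDimensional ℂ M) (Θ : M →ₗ[ℂ] M)
    (heq : ∀ (a : A N l q) (m : M), Θ (a • m) = tor N l q hl s a • Θ m) (μ : Fin (N + 1) → ℤ)
    (g : M) (hg : g ∈ WS (l := l) (q := q) s Θ μ) (hgen : ∀ m : M, ∃ a : A N l q, m = a • g)
    (htri : ∀ x : A N l q, x ∈ Submodule.span ℂ {y | ∃ (a b : EX N l) (κ : ℕ → ℕ),
      (∀ j, κ j < l) ∧ y = mon N q (gF N l q) a.1 *
        ((List.range (N + 1)).map fun j => gK N l q j ^ κ j).prod * mon N q (gE N l q) b.1}) :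
    GM (N := N) (q := q) hl s M Θ := by
  rw [mem_WS] at hg
  have hsc : ∀ (c : ℂ) (a : A N l q) (m : M), a • (c • m) = c • (a • m) :=
    fun c a m => (lsm a).map_smul c m
  have htop : ⨆ ν : Fin (N + 1) → ℤ, WS (l := l) (q := q) s Θ ν = ⊤ := by
    rw [eq_top_iff]
    intro m _
    obtain ⟨a, rfl⟩ := hgen m
    have ha := htri a
    induction ha using Submodule.span_induction with
    | mem x hx =>
      obtain ⟨a, b, κ, -, rfl⟩ := hx
      obtain ⟨ν1, h1⟩ := HasW.mon (hl := hl) (s := s) hq (hasW_F (N := N) (l := l)) a.1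
      obtain ⟨ν3, h3⟩ := HasW.mon (hl := hl) (s := s) hq (hasW_E (N := N) (l := l)) b.1
      obtain ⟨ν2, h2⟩ := HasW.list (hl := hl) (s := s) hq (List.range (N + 1))
        (fun j => gK N l q j ^ κ j) (fun j _ => (hasW_K (hl := hl) (s := s) j).pow hq (κ j))
      have h := (h1.mul hq h2).mul hq h3
      apply Submodule.mem_iSup_of_mem (ν1 + ν2 + ν3 + μ)
      rw [mem_WS]
      refine ⟨?_, ?_⟩
      · rw [heq, h.1, hg.1, hsc, smul_assoc, smul_smul, tw_add _ (ν1 + ν2 + ν3) μ, mul_comm]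
      · intro j
        rw [smul_smul, h.2 j, smul_assoc, mul_smul, hg.2 j, hsc, smul_smul,
          Pi.add_apply _ μ, zpow_add₀ hq]
    | zero => rw [zero_smul]; exact Submodule.zero_mem _
    | add x y _ _ hx hy => rw [add_smul]; exact Submodule.add_mem _ (hx trivial) (hy trivial)
    | smul c x _ hx => rw [smul_assoc]; exact Submodule.smul_mem _ _ (hx trivial)
  have hind : iSupIndep (fun ν : Fin (N + 1) → ℤ => Module.End.eigenspace Θ (tw N s ν)) :=
    (Module.End.eigenspaces_iSupIndep Θ).comp hinj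
  have hle : ∀ ν, WS (l := l) (q := q) s Θ ν ≤ Module.End.eigenspace Θ (tw N s ν) :=
    fun ν => inf_le_left
  refine ⟨hfd, heq, ?_, ?_⟩
  · rw [eq_top_iff, ← htop]
    exact iSup_mono hle
  · intro ν m hm j
    have h1 := eq_of_indep _ _ hind hle htop ν
    rw [h1] at hm
    rw [mem_WS] at hm
    exact hm.2 j

/-- A nonzero graded module has a nonzero `bt`. -/
theorem bt_ne [NeZero l] (hl : l ≠ 0) (s : ℕ → ℂˣ) (hinj : Function.Injective (tw N s))
    {M : Type} [AddCommGroup M] [Module ℂ M] [Module (A N l q) M]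
    [IsScalarTower ℂ (A N l q) M] [Nontrivial M] (Θ : M →ₗ[ℂ] M)
    (hG : GM (N := N) (q := q) hl s M Θ) : bt (dmM N s Θ) ≠ 0 := by
  have hfd := hG.fd
  have hfin : {ν : Fin (N + 1) → ℤ | dmM N s Θ ν ≠ 0}.Finite := by
    have h1 : {ν : Fin (N + 1) → ℤ | dmM N s Θ ν ≠ 0} ⊆
        (tw N s) ⁻¹' {c | Module.End.HasEigenvalue Θ c} := by
      intro ν hν
      change Module.End.HasEigenvalue Θ (tw N s ν)
      rw [Module.End.hasEigenvalue_iff]
      intro h
      apply hν
      change ((Module.finrank ℂ (Module.End.eigenspace Θ (tw N s ν)) : ℕ) : ℤ) = 0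
      rw [h, finrank_bot]
      rfl
    exact (Set.Finite.preimage hinj.injOn (Module.End.finite_hasEigenvalue Θ)).subset h1
  have hne : {ν : Fin (N + 1) → ℤ | dmM N s Θ ν ≠ 0}.Nonempty := by
    by_contra hcon
    rw [Set.not_nonempty_iff_eq_empty, Set.eq_empty_iff_forall_notMem] at hcon
    have h1 : ∀ ν : Fin (N + 1) → ℤ, Module.End.eigenspace Θ (tw N s ν) = ⊥ := by
      intro ν
      have h2 : dmM N s Θ ν = 0 := by
        by_contra h3
        exact hcon ν h3
      have h3 : Module.finrank ℂ (Module.End.eigenspace Θ (tw N s ν)) = 0 := by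
        have h4 : ((Module.finrank ℂ (Module.End.eigenspace Θ (tw N s ν)) : ℕ) : ℤ) = 0 := h2
        exact Int.natCast_eq_zero.mp h4
      exact Submodule.finrank_eq_zero.mp h3
    have h4 := hG.sup
    simp only [h1, iSup_bot] at h4
    exact bot_ne_top h4
  obtain ⟨ν, hν, hmax⟩ := Set.exists_max_image _ (hf N) hfin hne
  have hadd : ∀ a b : Fin (N + 1) → ℤ, hf N (a + b) = hf N a + hf N b := by
    intro a b
    unfold hf
    rw [← Finset.sum_add_distrib]
    apply Finset.sum_congr rfl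
    intro j _
    rw [Pi.add_apply, mul_add]
  have hsum : ∀ S : Finset (Fin (N + 1) × Fin (N + 1)), hf N (sumP S) =
      ∑ p ∈ S, ((p.2 : ℕ) - (p.1 : ℕ) : ℤ) := by
    intro S
    classical
    induction S using Finset.induction_on with
    | empty => simp [sumP, hf]
    | insert p S hp ih =>
      have e : sumP (insert p S) = (Pi.single p.1 1 - Pi.single p.2 1) + sumP S := by
        unfold sumP
        rw [Finset.sum_insert hp]
      rw [e, hadd, ih, Finset.sum_insert hp]
      congr 1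
      unfold hf
      simp only [Pi.sub_apply, mul_sub, Finset.sum_sub_distrib]
      rw [Finset.sum_eq_single p.1, Finset.sum_eq_single p.2]
      · simp only [Pi.single_eq_same]
        ring
      · intro j _ hj
        rw [Pi.single_eq_of_ne hj, mul_zero]
      · intro h; exact absurd (Finset.mem_univ _) h
      · intro j _ hj
        rw [Pi.single_eq_of_ne hj, mul_zero]
      · intro h; exact absurd (Finset.mem_univ _) h
  intro h0
  have h1 := congrFun h0 (ν - rhoP N)
  rw [Pi.zero_apply] at h1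
  unfold bt at h1
  rw [Finset.sum_eq_single ∅] at h1
  · have e : ν - rhoP N + rhoP N + sumP (∅ : Finset (Fin (N + 1) × Fin (N + 1))) = ν := by
      unfold sumP
      rw [Finset.sum_empty]
      abel
    rw [e, Finset.card_empty, pow_zero, one_mul] at h1
    exact hν h1
  · intro S hS hne'
    have h2 : 0 < hf N (sumP S) := by
      rw [hsum]
      apply Finset.sum_pos
      · intro p hp
        have h3 := Finset.mem_powerset.mp hS hp
        unfold phiP at h3
        rw [Finset.mem_filter] at h3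
        have h4 : (p.1 : ℕ) < (p.2 : ℕ) := h3.2
        omega
      · exact Finset.nonempty_of_ne_empty hne'
    have h3 : dmM N s Θ (ν - rhoP N + rhoP N + sumP S) = 0 := by
      by_contra h4
      have h5 := hmax _ h4
      rw [sub_add_cancel, hadd] at h5
      omega
    rw [h3, mul_zero]
  · intro h
    exact absurd (Finset.empty_mem_powerset _) h

end module

/-- **G0**. -/
theorem t_g0 : Pool.Agent.Helper34.SQ.S_G0 := by
  intro N l _ q hl s D C hS m I hI h1 hIφ hm
  have hq0 : q ≠ 0 := hS.par.prim.ne_zero hl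
  have hA : ∀ (c : ℂ) (x : A N l q), c • x = (algebraMap ℂ (A N l q) c) * x :=
    fun c x => Algebra.smul_def c x
  let I0 : Submodule (A N l q) (A N l q) :=
    { carrier := I
      add_mem' := fun ha hb => I.add_mem ha hb
      zero_mem' := I.zero_mem
      smul_mem' := fun a x hx => (hI a x hx).1 }
  have h0 : I0 ≠ ⊤ := by
    intro h
    apply h1
    have : (1 : A N l q) ∈ I0 := by rw [h]; trivial
    exact this
  obtain ⟨W, μ0, hWtop, hle, -, hWφ, hWμ⟩ := exists_W (Nat.pos_of_ne_zero hl) hS.par.prim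
    (gK N l q) (glA N l q).K_pow (glA N l q).K_comm (tor N l q hl s) (fun j => tor_K hl s j) I0 h0
    (fun x hx j => (hI _ x hx).2) (fun x hx => hIφ x hx) (N + 1)
  set μ : Fin (N + 1) → ℤ := fun j => (μ0 j : ℤ) with hμ
  have hnt : Nontrivial (A N l q ⧸ W) := Submodule.Quotient.nontrivial_iff.mpr hWtop
  have hfdA := hS.fd
  have hfd : FiniteDimensional ℂ (A N l q ⧸ W) :=
    Module.Finite.of_surjective (W.mkQ.restrictScalars ℂ) (Submodule.mkQ_surjective W)
  have hG : GM (N := N) (q := q) hl s (A N l q ⧸ W) (thQ hl s (tw N s μ) W hWφ) := by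
    refine gm_of_gen hl s hS.gen hq0 hfd _ ?_ μ (W.mkQ 1) ?_ ?_ hS.tri
    · intro a x
      induction x using Submodule.Quotient.induction_on with
      | _ b =>
      change tw N s μ • W.mkQ (tor N l q hl s (a * b)) =
        tor N l q hl s a • (tw N s μ • W.mkQ (tor N l q hl s b))
      rw [map_mul, smul_comm (tor N l q hl s a)]
      rfl
    · rw [mem_WS]
      refine ⟨?_, ?_⟩
      · rw [thQ_mk, map_one]
      · intro j
        have h2 := hWμ j (by omega)
        have h3 : W.mkQ (gK N l q j) = W.mkQ (algebraMap ℂ (A N l q) (q ^ μ0 j)) :=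
          (Submodule.Quotient.eq W).mpr h2
        have h4 : gK N l q j • W.mkQ 1 = W.mkQ (gK N l q j) := by
          rw [← map_smul, smul_eq_mul, mul_one]
        rw [h4, h3, hμ, zpow_natCast, Algebra.algebraMap_eq_smul_one]
        rfl
    · intro x
      induction x using Submodule.Quotient.induction_on with
      | _ a =>
      refine ⟨a, ?_⟩
      change W.mkQ a = a • W.mkQ 1
      rw [← map_smul, smul_eq_mul, mul_one]
  refine ⟨bt (dmM N s (thQ hl s (tw N s μ) W hWφ)), bt_ne hl s hS.gen _ hG, A N l q ⧸ W,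
    inferInstance, inferInstance, inferInstance, inferInstance, _, hG, ?_, ?_, rfl⟩
  · intro x
    induction x using Submodule.Quotient.induction_on with
    | _ a =>
    change W.mkQ (C.e m * a) = W.mkQ a
    apply (Submodule.Quotient.eq W).mpr
    have e : C.e m * a - a = -((1 - C.e m) * a) := by noncomm_ring
    rw [e]
    exact W.neg_mem (hle (hI a _ hm).2)
  · intro a ha x
    induction x using Submodule.Quotient.induction_on with
    | _ b =>
    change W.mkQ (a * b) = 0
    rw [← map_zero W.mkQ]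
    apply (Submodule.Quotient.eq W).mpr
    rw [sub_zero]
    exact hle (hI b a ha).2

end

end Pool.Agent.Helper36.SQ
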