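import Pool.Agent.Helper19.SQ.GoalsH

/-!
Project SQ (MP_bb32d1_al), packet SOC: the monomials applied to a vector with nonzero top are
linearly independent.
-/

namespace Pool.Agent.Helper36.SQ

open Pool.Agent.Helper19.SQ

noncomputable section

theorem upd_same (b : ℕ → ℕ → ℕ) (i j c : ℕ) : upd b i j c i j = c := by simp [upd]

theorem upd_ne (b : ℕ → ℕ → ℕ) (i j c i' j' : ℕ) (h : ¬ (i' = i ∧ j' = j)) :
    upd b i j c i' j' = b i' j' := by simp [upd, h]

/-- Height of a changed exponent. -/
theorem ht_upd (N : ℕ) (b : ℕ → ℕ → ℕ) (i j c : ℕ) (hi : i ≤ N) (hj : j ≤ N) :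
    ht N (upd b i j c) + b i j * (j - i) = ht N b + c * (j - i) := by
  have hδ : ∀ K : ℕ, ∑ i' ∈ Finset.range (N + 1), ∑ j' ∈ Finset.range (N + 1),
      (if i' = i ∧ j' = j then K else 0) = K := by
    intro K
    rw [Finset.sum_eq_single i]
    · rw [Finset.sum_eq_single j]
      · simp
      · intro b' _ hb'
        rw [if_neg (fun h => hb' h.2)]
      · intro h
        exact absurd (Finset.mem_range.mpr (by omega)) h
    · intro a _ ha
      apply Finset.sum_eq_zero
      intro b' _
      rw [if_neg (fun h => ha h.1)]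
    · intro h
      exact absurd (Finset.mem_range.mpr (by omega)) h
  conv_lhs => rw [← hδ (b i j * (j - i))]
  conv_rhs => rw [← hδ (c * (j - i))]
  unfold ht
  rw [← Finset.sum_add_distrib, ← Finset.sum_add_distrib]
  apply Finset.sum_congr rfl
  intro i' _
  rw [← Finset.sum_add_distrib, ← Finset.sum_add_distrib]
  apply Finset.sum_congr rfl
  intro j' _
  by_cases h : i' = i ∧ j' = j
  · rw [if_pos h, if_pos h, h.1, h.2, upd_same]
    ring
  · rw [if_neg h, if_neg h, upd_ne _ _ _ _ _ _ h]

theorem ht_inc (N : ℕ) (b : ℕ → ℕ → ℕ) (i j : ℕ) (hi : i ≤ N) (hj : j ≤ N) :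
    ht N (inc b i j) = ht N b + (j - i) := by
  have h := ht_upd N b i j (b i j + 1) hi hj
  unfold inc
  rw [add_mul, one_mul] at h
  omega

theorem ht_mvr (N : ℕ) (b : ℕ → ℕ → ℕ) (i k : ℕ) (hik : i < k) (hk : k < N) (hb : b i k ≠ 0) :
    ht N (mvr b i k) = ht N b + 1 := by
  unfold mvr
  rw [ht_inc N _ i (k + 1) (by omega) (by omega)]
  have h := ht_upd N b i k (b i k - 1) (by omega) (by omega)
  obtain ⟨c, hc⟩ : ∃ c, b i k = c + 1 := ⟨b i k - 1, by omega⟩
  rw [hc, Nat.add_sub_cancel, add_mul, one_mul] at h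
  rw [hc, Nat.add_sub_cancel]
  omega

theorem inc_ex (N l : ℕ) (b : ℕ → ℕ → ℕ) (hb : IsEx N l b) (i j : ℕ) (hij : i < j) (hj : j ≤ N)
    (hl : b i j + 1 < l) : IsEx N l (inc b i j) := by
  intro i' j'
  by_cases h : i' = i ∧ j' = j
  · obtain ⟨rfl, rfl⟩ := h
    refine ⟨fun _ => ?_, fun hn => absurd ⟨hij, hj⟩ hn⟩
    unfold inc
    rw [upd_same]
    exact hl
  · unfold inc
    rw [upd_ne _ _ _ _ _ _ h]
    exact hb i' j'

theorem upd_ex (N l : ℕ) (b : ℕ → ℕ → ℕ) (hb : IsEx N l b) (i j : ℕ) (hij : i < j) (hj : j ≤ N) :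
    IsEx N l (upd b i j (b i j - 1)) := by
  intro i' j'
  by_cases h : i' = i ∧ j' = j
  · obtain ⟨rfl, rfl⟩ := h
    refine ⟨fun _ => ?_, fun hn => absurd ⟨hij, hj⟩ hn⟩
    rw [upd_same]
    have := (hb i' j').1 ⟨hij, hj⟩
    omega
  · rw [upd_ne _ _ _ _ _ _ h]
    exact hb i' j'

section

variable {M : Type} [AddCommGroup M] [Module ℂ M]

open Classical in
theorem pick (N l : ℕ) (y : (ℕ → ℕ → ℕ) → M) (m : ℕ → ℕ → ℕ) (c : ℂ)
    (h : ¬ IsEx N l m → c • y m = 0) :
    ∑ b' : EX N l, (if b'.1 = m then c else 0) • y b'.1 = c • y m := by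
  by_cases hm : IsEx N l m
  · rw [Finset.sum_eq_single ⟨m, hm⟩]
    · rw [if_pos rfl]
    · intro b' _ hb'
      rw [if_neg (fun h => hb' (Subtype.ext h)), zero_smul]
    · intro h
      exact absurd (Finset.mem_univ _) h
  · rw [h hm]
    apply Finset.sum_eq_zero
    intro b' _
    have hne : b'.1 ≠ m := fun e => hm (by rw [← e]; exact b'.2)
    rw [if_neg hne, zero_smul]

theorem Lf_sum (N l : ℕ) (q : ℂ) (y : (ℕ → ℕ → ℕ) → M)
    (hy : ∀ b, (∃ i j, i < j ∧ j ≤ N ∧ l ≤ b i j) → y b = 0) (k : ℕ) (hk : k < N)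
    (b : ℕ → ℕ → ℕ) (hb : IsEx N l b) :
    ∑ b' : EX N l, Lf q k b b'.1 • y b'.1 =
      (∑ i ∈ Finset.range k, (wL q b k i * (-q * qn q (b i k))) • y (mvr b i k))
        + wL q b k k • y (inc b k (k + 1)) := by
  classical
  unfold Lf
  simp only [add_smul, Finset.sum_smul]
  rw [Finset.sum_add_distrib]
  congr 1
  · rw [Finset.sum_comm]
    apply Finset.sum_congr rfl
    intro i hi
    rw [Finset.mem_range] at hi
    have hp := pick N l y (mvr b i k) (wL q b k i * (-q * qn q (b i k))) (by
      intro hn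
      by_cases h0 : b i k = 0
      · rw [h0]
        simp [qn]
      · have : l ≤ b i (k + 1) + 1 := by
          by_contra hlt
          push Not at hlt
          apply hn
          unfold mvr
          apply inc_ex N l _ (upd_ex N l b hb i k hi (by omega)) i (k + 1) (by omega) (by omega)
          rw [upd_ne _ _ _ _ _ _ (by omega)]
          exact hlt
        rw [hy (mvr b i k) ⟨i, k + 1, by omega, by omega, ?_⟩, smul_zero]
        unfold mvr inc
        rw [upd_same, upd_ne _ _ _ _ _ _ (by omega)]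
        exact this)
    rw [← hp]
  · have hp := pick N l y (inc b k (k + 1)) (wL q b k k) (by
      intro hn
      have : l ≤ b k (k + 1) + 1 := by
        by_contra hlt
        push Not at hlt
        exact hn (inc_ex N l b hb k (k + 1) (by omega) (by omega) hlt)
      rw [hy (inc b k (k + 1)) ⟨k, k + 1, by omega, by omega, ?_⟩, smul_zero]
      unfold inc
      rw [upd_same]
      exact this)
    rw [← hp]

end

/-- The target of a nonzero coefficient has height one more. -/
theorem Lf_ht (N : ℕ) (q : ℂ) (k : ℕ) (hk : k < N) (b b' : ℕ → ℕ → ℕ) (h : Lf q k b b' ≠ 0) :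
    ht N b' = ht N b + 1 := by
  classical
  unfold Lf at h
  by_cases h2 : b' = inc b k (k + 1)
  · rw [h2, ht_inc N b k (k + 1) (by omega) (by omega)]
    omega
  · rw [if_neg h2, add_zero] at h
    obtain ⟨i, hi, hne⟩ := Finset.exists_ne_zero_of_sum_ne_zero h
    rw [Finset.mem_range] at hi
    by_cases h3 : b' = mvr b i k
    · rw [if_pos h3] at hne
      have h0 : b i k ≠ 0 := by
        intro h0
        apply hne
        rw [h0]
        simp [qn]
      rw [h3, ht_mvr N b i k hi hk h0]
    · rw [if_neg h3] at hne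
      exact absurd rfl hne

theorem s_soc (hJK : S_JK) (hHTOP : S_HTOP) : S_SOC := by
  intro N l q hpar M _ _ f y hy hf htop
  rw [Fintype.linearIndependent_iff]
  intro g hg
  by_contra hcon
  push Not at hcon
  -- nonzero relations with arbitrarily large heights
  have key : ∀ h : ℕ, ∃ x : EX N l → ℂ, ∑ b : EX N l, x b • y b.1 = 0 ∧ (∃ b, x b ≠ 0) ∧
      ∀ b : EX N l, x b ≠ 0 → h ≤ ht N b.1 := by
    intro h
    induction h with
    | zero => exact ⟨g, hg, hcon, fun _ _ => Nat.zero_le _⟩
    | succ h ih =>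
      obtain ⟨x, hx, ⟨b0, hb0⟩, hh⟩ := ih
      by_cases hall : ∀ k, k < N → ∀ b' : EX N l, ∑ b : EX N l, x b * Lf q k b.1 b'.1 = 0
      · exfalso
        have hJ := hJK N l q hpar x hall
        have hb0top : b0.1 = topE N l := by
          by_contra hne
          exact hb0 (hJ b0 hne)
        rw [Finset.sum_eq_single b0] at hx
        · rw [hb0top] at hx
          rcases smul_eq_zero.mp hx with h1 | h1
          · exact hb0 h1
          · exact htop h1
        · intro b _ hb
          rw [hJ b (fun h => hb (Subtype.ext (h.trans hb0top.symm))), zero_smul]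
        · intro h
          exact absurd (Finset.mem_univ _) h
      · push Not at hall
        obtain ⟨k, hk, b1, hb1⟩ := hall
        refine ⟨fun b' => ∑ b : EX N l, x b * Lf q k b.1 b'.1, ?_, ⟨b1, hb1⟩, ?_⟩
        · have h1 : ∑ b' : EX N l, (∑ b : EX N l, x b * Lf q k b.1 b'.1) • y b'.1 =
              ∑ b : EX N l, x b • f k (y b.1) := by
            simp only [Finset.sum_smul, mul_smul]
            rw [Finset.sum_comm]
            apply Finset.sum_congr rfl
            intro b _
            rw [← Finset.smul_sum, Lf_sum N l q y hy k hk b.1 b.2, hf k hk b.1 b.2]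
          rw [h1]
          have h2 : ∑ b : EX N l, x b • f k (y b.1) = f k (∑ b : EX N l, x b • y b.1) := by
            rw [map_sum]
            apply Finset.sum_congr rfl
            intro b _
            rw [map_smul]
          rw [h2, hx, map_zero]
        · intro b' hb'
          obtain ⟨b, _, hne⟩ := Finset.exists_ne_zero_of_sum_ne_zero hb'
          have h1 : x b ≠ 0 := left_ne_zero_of_mul hne
          have h2 : Lf q k b.1 b'.1 ≠ 0 := right_ne_zero_of_mul hne
          rw [Lf_ht N q k hk b.1 b'.1 h2]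
          have := hh b h1
          omega
  obtain ⟨x, _, ⟨b, hb⟩, hh⟩ := key (ht N (topE N l) + 1)
  have h1 := hh b hb
  have h2 := (hHTOP N l b.1 b.2).1
  omega

end

end Pool.Agent.Helper36.SQ
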