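import Pool.Agent.Helper19.SQ.GoalsC

/-!
Project SQ (MP_bb32d1_al), packet SQ-GBR.
-/

set_option autoImplicit false

namespace Pool.Agent.Helper36.SQ

open Pool.Agent.Helper19.SQ

section

variable {l n : ℕ} [NeZero l] {T : Type} [AddCommGroup T] [Module ℂ T] (C : Cnt l n T)

theorem gbr_one (d a c : ZMod l) (had : a ≠ d) (hca : c ≠ a) (hcd : c ≠ d) (r r' i : ℕ)
    (s s' j : ℤ) :
    C.e d c i j * (C.e d a r s * C.e a d r' s' - C.e a d r' s' * C.e d a r s) -
      (C.e d a r s * C.e a d r' s' - C.e a d r' s' * C.e d a r s) * C.e d c i j =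
      - C.e d c (i + r + r') (j + s + s') := by
  have h1 : C.e d c i j * C.e d a r s = C.e d a r s * C.e d c i j :=
    C.com d c d a i j r s hcd.symm had.symm hcd had.symm
  have h2 : C.e a d r' s' * C.e d c i j - C.e d c i j * C.e a d r' s' =
      C.e a c (r' + i) (s' + j) := C.mul a d c r' s' i j had hcd.symm hca.symm
  have h3 : C.e d a r s * C.e a c (r' + i) (s' + j) - C.e a c (r' + i) (s' + j) * C.e d a r s =
      C.e d c (r + (r' + i)) (s + (s' + j)) := C.mul d a c _ _ _ _ had.symm hca.symm hcd.symm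
  have e1 : i + r + r' = r + (r' + i) := by ring
  have e2 : j + s + s' = s + (s' + j) := by ring
  rw [e1, e2, ← h3, ← h2]
  generalize C.e d c i j = A at *
  generalize C.e d a r s = P at *
  generalize C.e a d r' s' = Q at *
  have k1 : A * (P * Q - Q * P) - (P * Q - Q * P) * A =
      (A * P - P * A) * Q - Q * (A * P - P * A) - (P * (Q * A - A * Q) - (Q * A - A * Q) * P) := by
    noncomm_ring
  rw [k1, h1, sub_self, zero_mul, mul_zero, sub_zero, zero_sub]

theorem gbr_two (d a b : ZMod l) (had : a ≠ d) (hba : b ≠ a) (hbd : b ≠ d) (r r' i : ℕ)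
    (s s' j : ℤ) :
    C.e b a i j * (C.e d a r s * C.e a d r' s' - C.e a d r' s' * C.e d a r s) -
      (C.e d a r s * C.e a d r' s' - C.e a d r' s' * C.e d a r s) * C.e b a i j =
      - C.e b a (i + r + r') (j + s + s') := by
  have h1 : C.e b a i j * C.e d a r s = C.e d a r s * C.e b a i j :=
    C.com b a d a i j r s hba had.symm had hba
  have h2 : C.e b a i j * C.e a d r' s' - C.e a d r' s' * C.e b a i j =
      C.e b d (i + r') (j + s') := C.mul b a d i j r' s' hba had hbd
  have h3 : C.e b d (i + r') (j + s') * C.e d a r s - C.e d a r s * C.e b d (i + r') (j + s') =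
      C.e b a (i + r' + r) (j + s' + s) := C.mul b d a _ _ _ _ hbd had.symm hba
  have e1 : i + r + r' = i + r' + r := by ring
  have e2 : j + s + s' = j + s' + s := by ring
  rw [e1, e2, ← h3, ← h2]
  generalize C.e b a i j = A at *
  generalize C.e d a r s = P at *
  generalize C.e a d r' s' = Q at *
  have k1 : A * (P * Q - Q * P) - (P * Q - Q * P) * A =
      (A * P - P * A) * Q - Q * (A * P - P * A) - ((A * Q - Q * A) * P - P * (A * Q - Q * A)) := by
    noncomm_ring
  rw [k1, h1, sub_self, zero_mul, mul_zero, sub_zero, zero_sub]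

theorem exists_third (hl : 3 ≤ l) (a d : ZMod l) : ∃ b : ZMod l, b ≠ a ∧ b ≠ d := by
  have h1 : (({a, d} : Finset (ZMod l))).card ≤ 2 := Finset.card_le_two
  have h2 : (({a, d} : Finset (ZMod l))ᶜ).Nonempty := by
    rw [← Finset.card_pos, Finset.card_compl, ZMod.card]
    omega
  obtain ⟨x, hx⟩ := h2
  rw [Finset.mem_compl, Finset.mem_insert, Finset.mem_singleton] at hx
  exact ⟨x, fun h => hx (Or.inl h), fun h => hx (Or.inr h)⟩

end

/-- **GBR.** -/
theorem s_gbr : S_GBR := by
  intro l n _ T _ _ C hl d a had r r' s s' g hg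
  refine ⟨fun c i j hca hcd => ?_, fun i j => ?_⟩
  · rw [hg]
    exact gbr_one C d a c had hca hcd r r' i s s' j
  · obtain ⟨b, hba, hbd⟩ := exists_third hl a d
    have h0 : C.e d b i j * C.e b a 0 0 - C.e b a 0 0 * C.e d b i j = C.e d a (i + 0) (j + 0) :=
      C.mul d b a i j 0 0 hbd.symm hba had.symm
    rw [add_zero, add_zero] at h0
    have h1 := gbr_one C d a b had hba hbd r r' i s s' j
    have h2 := gbr_two C d a b had hba hbd r r' 0 s s' 0
    rw [← hg] at h1 h2
    have h3 : C.e d b i j * C.e b a (0 + r + r') (0 + s + s') -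
        C.e b a (0 + r + r') (0 + s + s') * C.e d b i j =
        C.e d a (i + (0 + r + r')) (j + (0 + s + s')) := C.mul d b a _ _ _ _ hbd.symm hba had.symm
    have h4 : C.e d b (i + r + r') (j + s + s') * C.e b a 0 0 -
        C.e b a 0 0 * C.e d b (i + r + r') (j + s + s') =
        C.e d a (i + r + r' + 0) (j + s + s' + 0) := C.mul d b a _ _ _ _ hbd.symm hba had.symm
    have e1 : i + (0 + r + r') = i + r + r' := by ring
    have e2 : j + (0 + s + s') = j + s + s' := by ring
    rw [e1, e2] at h3
    rw [add_zero, add_zero] at h4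
    rw [← h0]
    generalize C.e d b i j = X at *
    generalize C.e b a 0 0 = Y at *
    generalize C.e b a (0 + r + r') (0 + s + s') = Z at *
    generalize C.e d b (i + r + r') (j + s + s') = W at *
    generalize C.e d a (i + r + r') (j + s + s') = V at *
    have k1 : (X * Y - Y * X) * g - g * (X * Y - Y * X) =
        (X * (Y * g - g * Y) - (Y * g - g * Y) * X) +
        ((X * g - g * X) * Y - Y * (X * g - g * X)) := by
      noncomm_ring
    rw [k1, h1, h2]
    have k2 : X * -Z - -Z * X + (-W * Y - Y * -W) = -(X * Z - Z * X) - (W * Y - Y * W) := by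
      noncomm_ring
    rw [k2, h3, h4]
    module

end Pool.Agent.Helper36.SQ
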