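import Pool.Agent.Helper4.SQ.GoalsL

/-!
Project SQ (MP_bb32d1_al), packet SQL-FEQ.
-/

set_option autoImplicit false
set_option linter.unusedSectionVars false

namespace Pool.Agent.Helper36.SQ

open Pool.Agent.Helper19.SQ Pool.Agent.Helper4.SQ

section

variable {I : Type} [Fintype I] [DecidableEq I] {L : Type} [LieRing L] [LieAlgebra ℂ L]

theorem third (h3 : 3 ≤ Fintype.card I) (a b : I) : ∃ x : I, x ≠ a ∧ x ≠ b := by
  have h1 : (({a, b} : Finset I)).card ≤ 2 := Finset.card_le_two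
  have h2 : (({a, b} : Finset I)ᶜ).Nonempty := by
    rw [← Finset.card_pos, Finset.card_compl]
    omega
  obtain ⟨x, hx⟩ := h2
  rw [Finset.mem_compl, Finset.mem_insert, Finset.mem_singleton] at hx
  exact ⟨x, fun h => hx (Or.inl h), fun h => hx (Or.inr h)⟩

theorem rel_left {G : GLd I L} {U : I → I → L} (hU : IsFam G U) {x a b : I} (h1 : x ≠ a)
    (h2 : a ≠ b) (h3 : x ≠ b) : ⁅G.e x a, U a b⁆ = U x b := by
  rw [hU.rel x a a b h1 h2 (fun h => h3 h.2), if_pos rfl, if_neg h3, sub_zero]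

theorem rel_right {G : GLd I L} {U : I → I → L} (hU : IsFam G U) {x y b : I} (h1 : b ≠ y)
    (h2 : x ≠ b) (h3 : y ≠ x) : ⁅G.e b y, U x b⁆ = -U x y := by
  rw [hU.rel b y x b h1 h2 (fun h => h3 h.1), if_neg h3, if_pos rfl, zero_sub]

theorem fam_D {G : GLd I L} {U : I → I → L} (hU : IsFam G U) {a b x : I} (hab : a ≠ b)
    (hxa : x ≠ a) (hxb : x ≠ b) :
    ⁅G.e a b, U b a⁆ = ⁅G.e a x, U x a⁆ - ⁅G.e b x, U x b⁆ := by
  have h1 : U b a = ⁅G.e b x, U x a⁆ := (rel_left hU hxb.symm hxa hab.symm).symm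
  have h2 : ⁅G.e a b, G.e b x⁆ = G.e a x := by
    rw [G.gl, if_pos rfl, if_neg hxa.symm, sub_zero]
  have h3 : ⁅G.e a b, U x a⁆ = -U x b := rel_right hU hab hxa hxb.symm
  rw [h1, leibniz_lie, h2, h3, lie_neg, sub_eq_add_neg]

end

/-- **FEQ.** -/
theorem sFEQ : S_FEQ := by
  intro I _ _ L _ _ G h3 U hU
  refine ⟨fun U' hU' a b hab hUU => ?_, fun a b hab => ?_⟩
  · have s1 : ∀ x, x ≠ b → U x b = U' x b := by
      intro x hx
      by_cases hxa : x = a
      · rw [hxa]
        exact hUU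
      · rw [← rel_left hU hxa hab hx, ← rel_left hU' hxa hab hx, hUU]
    have s2 : ∀ x y, x ≠ b → y ≠ x → U x y = U' x y := by
      intro x y hx hyx
      by_cases hyb : y = b
      · rw [hyb]
        exact s1 x hx
      · have e1 := rel_right hU (fun h => hyb h.symm) hx hyx
        have e2 := rel_right hU' (fun h => hyb h.symm) hx hyx
        rw [s1 x hx, e2] at e1
        exact (neg_injective e1).symm
    funext x y
    by_cases hyx : y = x
    · rw [hyx, hU.diag, hU'.diag]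
    by_cases hx : x = b
    · obtain ⟨z, hzb, hzy⟩ := third h3 b y
      have hby : b ≠ y := fun h => hyx (h.symm.trans hx.symm)
      rw [hx, ← rel_left hU hzb.symm hzy hby, ← rel_left hU' hzb.symm hzy hby,
        s2 z y hzb hzy.symm]
    · exact s2 x y hx hyx
  · obtain ⟨x, hxa, hxb⟩ := third h3 a b
    have e1 := fam_D hU hab hxa hxb
    have e2 := fam_D hU hab.symm hxb hxa
    have e3 : ⁅U a b, G.e b a⁆ = -⁅G.e b a, U a b⁆ := (lie_skew _ _).symm
    rw [e3, e2, e1]
    abel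

end Pool.Agent.Helper36.SQ
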