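import Pool.Agent.Helper4.SQ.GoalsR

/-!
Project SQ (MP_bb32d1_al), packet SQR-QTR: the partial quantum trace.
-/

set_option autoImplicit false
set_option linter.unusedSectionVars false

namespace Pool.Agent.Helper36.SQ

open Matrix Pool.Agent.Helper19.SQ Pool.Agent.Helper34.SQ Pool.Agent.Helper41.SQ
  Pool.Agent.Helper4.SQ

section

variable {A : Type} [Ring A] [Algebra ℂ A] {ι : Type} [Fintype ι] [DecidableEq ι]

theorem qt_apply (w : ι → ℂ) (M : Matrix (ι × ι) (ι × ι) A) (a b : ι) :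
    qt w M a b = ∑ p, w p • M (p, a) (p, b) := rfl

theorem qt_mul_bd (w : ι → ℂ) (M : Matrix (ι × ι) (ι × ι) A) (Y : Matrix ι ι A) :
    qt w (M * bd Y) = qt w M * Y := by
  ext a b
  rw [qt_apply, Matrix.mul_apply]
  have h1 : ∀ p : ι, (M * bd Y) (p, a) (p, b) = ∑ c, M (p, a) (p, c) * Y c b := by
    intro p
    rw [Matrix.mul_apply, Fintype.sum_prod_type]
    rw [Finset.sum_eq_single p]
    · refine Finset.sum_congr rfl fun c _ => ?_
      rw [bd_apply, if_pos rfl]
    · intro p' _ hp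
      refine Finset.sum_eq_zero fun c _ => ?_
      rw [bd_apply, if_neg hp, mul_zero]
    · intro h
      exact absurd (Finset.mem_univ p) h
  simp only [h1, qt_apply, Finset.smul_sum, Finset.sum_mul]
  rw [Finset.sum_comm]
  refine Finset.sum_congr rfl fun c _ => Finset.sum_congr rfl fun p _ => ?_
  rw [smul_mul_assoc]

theorem qt_bd_mul (w : ι → ℂ) (M : Matrix (ι × ι) (ι × ι) A) (Y : Matrix ι ι A) :
    qt w (bd Y * M) = Y * qt w M := by
  ext a b
  rw [qt_apply, Matrix.mul_apply]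
  have h1 : ∀ p : ι, (bd Y * M) (p, a) (p, b) = ∑ c, Y a c * M (p, c) (p, b) := by
    intro p
    rw [Matrix.mul_apply, Fintype.sum_prod_type]
    rw [Finset.sum_eq_single p]
    · refine Finset.sum_congr rfl fun c _ => ?_
      rw [bd_apply, if_pos rfl]
    · intro p' _ hp
      refine Finset.sum_eq_zero fun c _ => ?_
      rw [bd_apply, if_neg (Ne.symm hp), zero_mul]
    · intro h
      exact absurd (Finset.mem_univ p) h
  simp only [h1, qt_apply, Finset.smul_sum, Finset.mul_sum]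
  rw [Finset.sum_comm]
  refine Finset.sum_congr rfl fun c _ => Finset.sum_congr rfl fun p _ => ?_
  rw [mul_smul_comm]

theorem qt_Sc (C : Core0 A ι) (q : ℂ) (P : CoreQ C q) :
    qt C.w (sc A P.Sc) = q • (1 : Matrix ι ι A) := by
  ext a b
  rw [qt_apply]
  have h1 : ∀ p : ι, C.w p • (sc A P.Sc) (p, a) (p, b) =
      (C.w b * C.S (a, b) (p, p)) • (1 : A) := by
    intro p
    rw [P.SSc p a p b]
    change C.w p • algebraMap ℂ A (P.Sc (p, a) (p, b)) = _
    rw [Algebra.algebraMap_eq_smul_one, smul_smul]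
  have h2 : C.u (a, b) = (P.κ2 * ∑ p, C.S (a, b) (p, p)) • (1 : A) := by
    have h3 : C.u = sc A C.S *ᵥ (sc A C.T *ᵥ C.u) := by
      rw [Matrix.mulVec_mulVec, sc_mul, C.ST, sc_one, Matrix.one_mulVec]
    rw [h3]
    change ∑ x, (sc A C.S) (a, b) x * (sc A C.T *ᵥ C.u) x = _
    rw [Fintype.sum_prod_type, Finset.mul_sum, Finset.sum_smul]
    refine Finset.sum_congr rfl fun p _ => ?_
    rw [Finset.sum_eq_single p]
    · rw [P.Tu, if_pos rfl]
      change algebraMap ℂ A (C.S (a, b) (p, p)) * _ = _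
      rw [Algebra.algebraMap_eq_smul_one, smul_mul_smul_comm, one_mul, mul_comm]
    · intro p' _ hp
      rw [P.Tu, if_neg (Ne.symm hp), mul_zero]
    · intro h
      exact absurd (Finset.mem_univ p) h
  have h4 : (P.κ2 * ∑ p, C.S (a, b) (p, p)) • (1 : A) =
      (if a = b then P.κ1 * (C.w a)⁻¹ else 0) • (1 : A) := by
    rw [← h2, P.u_eq]
    by_cases h : a = b
    · rw [if_pos h, if_pos h]
    · rw [if_neg h, if_neg h, zero_smul]
  have hq := P.q_ne
  have hκ1 := P.κ1_ne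
  have hκ : P.κ2 = P.κ1 * q⁻¹ := by rw [P.κ2q, P.κ1q]
  rw [Finset.sum_congr rfl fun p _ => h1 p, ← Finset.sum_smul, ← Finset.mul_sum]
  have hκ2 : P.κ2 ≠ 0 := by
    rw [hκ]
    exact mul_ne_zero hκ1 (inv_ne_zero hq)
  have h5 : (C.w b * ∑ p, C.S (a, b) (p, p)) • (1 : A) =
      (C.w b * P.κ2⁻¹) • ((P.κ2 * ∑ p, C.S (a, b) (p, p)) • (1 : A)) := by
    rw [smul_smul]
    congr 1
    field_simp
  rw [h5, h4, smul_smul, Matrix.smul_apply, Matrix.one_apply]
  by_cases h : a = b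
  · rw [if_pos h, if_pos h, ← h]
    congr 1
    have hw := C.w_ne a
    rw [hκ]
    field_simp
  · rw [if_neg h, if_neg h, mul_zero, zero_smul, smul_zero]

theorem sc_bd_sc (S R : Matrix (ι × ι) (ι × ι) ℂ) (Y : Matrix ι ι A) (x y : ι × ι) :
    (sc A S * bd Y * sc A R) x y =
      ∑ z, ∑ c, ∑ c', (S x (z, c) * R (z, c') y) • Y c c' := by
  rw [Matrix.mul_assoc, Matrix.mul_apply, Fintype.sum_prod_type]
  refine Finset.sum_congr rfl fun z _ => Finset.sum_congr rfl fun c _ => ?_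
  rw [Matrix.mul_apply, Fintype.sum_prod_type, Finset.sum_eq_single z, Finset.mul_sum]
  · refine Finset.sum_congr rfl fun c' _ => ?_
    rw [bd_apply, if_pos rfl]
    change algebraMap ℂ A (S x (z, c)) * (Y c c' * algebraMap ℂ A (R (z, c') y)) = _
    rw [← Algebra.commutes (R (z, c') y) (Y c c'), ← mul_assoc, ← map_mul, ← Algebra.smul_def]
  · intro z' _ hz
    refine Finset.sum_eq_zero fun c' _ => ?_
    rw [bd_apply, if_neg (Ne.symm hz), zero_mul]
  · intro h
    exact absurd (Finset.mem_univ z) h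

theorem qt_Sc_Y (C : Core0 A ι) (q : ℂ) (P : CoreQ C q) (Y : Matrix ι ι A) :
    qt C.w (sc A P.Sc * bd Y * (sc A P.Sc - P.ω • 1)) =
      Matrix.diagonal fun _ => ∑ s, C.w s • Y s s := by
  have h0 : sc A P.Sc - P.ω • (1 : Matrix (ι × ι) (ι × ι) A) =
      sc A (P.Sc - P.ω • (1 : Matrix (ι × ι) (ι × ι) ℂ)) := by
    ext x y
    change algebraMap ℂ A (P.Sc x y) - P.ω • (1 : Matrix (ι × ι) (ι × ι) A) x y =
      algebraMap ℂ A (P.Sc x y - P.ω • (1 : Matrix (ι × ι) (ι × ι) ℂ) x y)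
    rw [map_sub, Matrix.one_apply, Matrix.one_apply]
    by_cases h : x = y
    · rw [if_pos h, if_pos h, smul_eq_mul, mul_one, Algebra.algebraMap_eq_smul_one P.ω]
    · rw [if_neg h, if_neg h, smul_zero, smul_zero, map_zero]
  rw [h0]
  ext a b
  rw [qt_apply]
  have h1 : ∀ p : ι, C.w p • (sc A P.Sc * bd Y *
      sc A (P.Sc - P.ω • (1 : Matrix (ι × ι) (ι × ι) ℂ))) (p, a) (p, b) =
      ∑ z, ∑ c, ∑ c', (C.w c * (C.S (a, c) (p, z) * C.T (p, z) (b, c'))) • Y c c' := by
    intro p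
    rw [sc_bd_sc, Finset.smul_sum]
    refine Finset.sum_congr rfl fun z _ => ?_
    rw [Finset.smul_sum]
    refine Finset.sum_congr rfl fun c _ => ?_
    rw [Finset.smul_sum]
    refine Finset.sum_congr rfl fun c' _ => ?_
    rw [smul_smul, ← mul_assoc, ← mul_assoc, P.SSc p a z c, P.TSc b p c' z]
  rw [Finset.sum_congr rfl fun p _ => h1 p]
  have h2 : ∑ p, ∑ z, ∑ c, ∑ c', (C.w c * (C.S (a, c) (p, z) * C.T (p, z) (b, c'))) • Y c c' =
      ∑ c, ∑ c', (C.w c * (C.S * C.T) (a, c) (b, c')) • Y c c' := by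
    have h3 : ∀ c c' : ι, (C.w c * (C.S * C.T) (a, c) (b, c')) • Y c c' =
        ∑ p, ∑ z, (C.w c * (C.S (a, c) (p, z) * C.T (p, z) (b, c'))) • Y c c' := by
      intro c c'
      rw [Matrix.mul_apply, Fintype.sum_prod_type, Finset.mul_sum, Finset.sum_smul]
      refine Finset.sum_congr rfl fun p _ => ?_
      rw [Finset.mul_sum, Finset.sum_smul]
    simp only [h3]
    have h4 : ∀ (f : ι → ι → ι → ι → A), ∑ p, ∑ z, ∑ c, ∑ c', f p z c c' =
        ∑ c, ∑ c', ∑ p, ∑ z, f p z c c' := by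
      intro f
      have h5 : ∀ p, ∑ z, ∑ c, ∑ c', f p z c c' = ∑ c, ∑ c', ∑ z, f p z c c' := by
        intro p
        rw [Finset.sum_comm]
        exact Finset.sum_congr rfl fun c _ => Finset.sum_comm
      rw [Finset.sum_congr rfl fun p _ => h5 p, Finset.sum_comm]
      exact Finset.sum_congr rfl fun c _ => Finset.sum_comm
    exact h4 _
  rw [h2, C.ST]
  by_cases h : a = b
  · subst h
    rw [Matrix.diagonal_apply_eq]
    refine Finset.sum_congr rfl fun c _ => ?_
    rw [Finset.sum_eq_single c]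
    · rw [Matrix.one_apply_eq, mul_one]
    · intro c' _ hc
      rw [Matrix.one_apply_ne (fun h => hc (congrArg Prod.snd h).symm), mul_zero, zero_smul]
    · intro h
      exact absurd (Finset.mem_univ c) h
  · rw [Matrix.diagonal_apply_ne _ h]
    refine Finset.sum_eq_zero fun c _ => Finset.sum_eq_zero fun c' _ => ?_
    rw [Matrix.one_apply_ne (fun h' => h (congrArg Prod.fst h')), mul_zero, zero_smul]

end

/-- **QTR.** -/
theorem sQTR : S_QTR := by
  intro A _ _ ι _ _ C q P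
  refine ⟨fun M M' => ?_, fun t M => ?_, qt_mul_bd C.w, qt_bd_mul C.w, qt_Sc C q P,
    qt_Sc_Y C q P⟩
  · ext a b
    rw [Matrix.add_apply, qt_apply, qt_apply, qt_apply, ← Finset.sum_add_distrib]
    refine Finset.sum_congr rfl fun p _ => ?_
    rw [Matrix.add_apply, smul_add]
  · ext a b
    rw [Matrix.smul_apply, qt_apply, qt_apply, Finset.smul_sum]
    refine Finset.sum_congr rfl fun p _ => ?_
    rw [Matrix.smul_apply, smul_comm]

end Pool.Agent.Helper36.SQ
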